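import Pool.Agent.Helper99.Perm.Transfer

/-!
# MP_6726c7_co: two independent random permutations are `O(n^(1/3))`-similar

The answer to Q1 in the words of the problem file: patterns of subsequences of the words of two
permutations, the least number `U(σ, π)` of pairs of order-isomorphic subsequences, and two
independent uniformly distributed random permutations on an arbitrary probability space, with
explicit constant and rate.
-/

set_option autoImplicit false

open MeasureTheory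

namespace Pool.Agent.Results.MP_6726c7_co.CubeRootSimilarity

/-- The pattern of a sequence of distinct numbers: its `i`-th smallest entry is replaced by `i`
(every entry `x` by the number of entries which are at most `x`). -/
def pattern (a : List ℕ) : List ℕ :=
  a.map fun x => (a.filter fun y => y ≤ x).length

/-- The subsequence of the word `σ(1), …, σ(n)` which consists of the entries at the positions
in `S`. -/
def subword {n : ℕ} (σ : Equiv.Perm (Fin n)) (S : Finset (Fin n)) : List ℕ :=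
  (S.sort (· ≤ ·)).map fun a => (σ a : ℕ) + 1

/-- `σ` and `π` are `ℓ`-similar: both words can be partitioned into `ℓ` subsequences (`c`, `d` give
the index of the subsequence to which a position belongs) such that the `i`-th ones have the same
pattern, for every `i`. -/
def Similar {n : ℕ} (ℓ : ℕ) (σ π : Equiv.Perm (Fin n)) : Prop :=
  ∃ c d : Fin n → Fin ℓ, ∀ i : Fin ℓ,
    pattern (subword σ (Finset.univ.filter fun a => c a = i)) =
      pattern (subword π (Finset.univ.filter fun a => d a = i))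

/-- `U(σ, π)`: the least `ℓ ≥ 1` for which `σ` and `π` are `ℓ`-similar. -/
noncomputable def U {n : ℕ} (σ π : Equiv.Perm (Fin n)) : ℕ :=
  sInf {ℓ : ℕ | 1 ≤ ℓ ∧ Similar ℓ σ π}

/-- `X` and `Y` are independent random permutations of `n` points, each of them uniformly
distributed. -/
structure IndepUniform {n : ℕ} {Ω : Type*} [MeasurableSpace Ω] (μ : Measure Ω)
    (X Y : Ω → Equiv.Perm (Fin n)) : Prop where
  measX : ∀ τ, MeasurableSet {ω | X ω = τ}
  measY : ∀ τ, MeasurableSet {ω | Y ω = τ}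
  uniX : ∀ τ, μ.real {ω | X ω = τ} = 1 / n.factorial
  uniY : ∀ τ, μ.real {ω | Y ω = τ} = 1 / n.factorial
  indep : ∀ τ ρ, μ.real {ω | X ω = τ ∧ Y ω = ρ} = μ.real {ω | X ω = τ} * μ.real {ω | Y ω = ρ}

/-! ## Proof -/

lemma pattern_map {α : Type*} (L : List α) (f h : α → ℕ)
    (H : ∀ a ∈ L, ∀ b ∈ L, (f a ≤ f b ↔ h a ≤ h b)) :
    pattern (L.map f) = pattern (L.map h) := by
  unfold pattern
  rw [List.map_map, List.map_map]
  refine List.map_congr_left fun a ha => ?_
  simp only [Function.comp, List.filter_map, List.length_map]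
  congr 1
  refine List.filter_congr fun b hb => ?_
  simp only [Function.comp, decide_eq_decide]
  exact H b hb a ha

lemma sort_map {n : ℕ} (S T : Finset (Fin n)) (g : Equiv.Perm (Fin n))
    (hT : ∀ b, b ∈ T ↔ g.symm b ∈ S) (hg : ∀ a ∈ S, ∀ a' ∈ S, (a < a' ↔ g a < g a')) :
    T.sort (· ≤ ·) = (S.sort (· ≤ ·)).map g := by
  have hTS : T = S.map g.toEmbedding := by
    ext b
    rw [hT, Finset.mem_map]
    constructor
    · intro h
      exact ⟨g.symm b, h, by simp⟩
    · rintro ⟨a, ha, rfl⟩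
      simpa using ha
  have hmono : StrictMonoOn g.toEmbedding (S : Set (Fin n)) := by
    intro a ha a' ha' h
    exact (hg a ha a' ha').1 h
  rw [hTS]
  exact (StrictMonoOn.map_finsetSort g.toEmbedding S hmono).symm

lemma similar_of_nice {n N : ℕ} (σ π : Equiv.Perm (Fin n))
    (h : Pool.Agent.Helper99.Perm.Nice N (σ : Fin n → Fin n) (π : Fin n → Fin n)) :
    Similar N σ π := by
  obtain ⟨c, g, hcg⟩ := h
  refine ⟨c, fun b => c (g.symm b), fun i => ?_⟩
  unfold subword
  rw [sort_map (Finset.univ.filter fun a => c a = i)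
    (Finset.univ.filter fun b => c (g.symm b) = i) g (by intro b; simp) ?_, List.map_map]
  · refine pattern_map _ _ _ fun a ha b hb => ?_
    have ha' : c a = i := by simpa using ha
    have hb' : c b = i := by simpa using hb
    have h1 := (hcg b a (hb'.trans ha'.symm)).2
    simp only [Function.comp, add_le_add_iff_right, Fin.val_fin_le]
    rw [← not_lt, ← not_lt, h1]
  · intro a ha a' ha'
    have ha1 : c a = i := by simpa using ha
    have ha2 : c a' = i := by simpa using ha'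
    exact (hcg a a' (ha1.trans ha2.symm)).1

lemma prob_bound {n : ℕ} {Ω : Type*} [MeasurableSpace Ω] (μ : Measure Ω) [IsProbabilityMeasure μ]
    (σ π : Ω → Equiv.Perm (Fin n)) (h : IndepUniform μ σ π)
    (G : Finset (Equiv.Perm (Fin n) × Equiv.Perm (Fin n))) (S : Set Ω)
    (hS : ∀ ω, (σ ω, π ω) ∈ G → ω ∈ S) :
    (G.card : ℝ) / ((n.factorial : ℝ) ^ 2) ≤ μ.real S := by
  have hmeas : ∀ p : Equiv.Perm (Fin n) × Equiv.Perm (Fin n), p ∈ G →
      MeasurableSet {ω | σ ω = p.1 ∧ π ω = p.2} := fun p _ =>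
    (h.measX p.1).inter (h.measY p.2)
  have hdisj : (G : Set (Equiv.Perm (Fin n) × Equiv.Perm (Fin n))).PairwiseDisjoint
      (fun p => {ω | σ ω = p.1 ∧ π ω = p.2}) := by
    intro p _ q _ hpq
    refine Set.disjoint_left.2 fun ω h1 h2 => hpq ?_
    exact Prod.ext (h1.1.symm.trans h2.1) (h1.2.symm.trans h2.2)
  have hm := measureReal_biUnion_finset (μ := μ) hdisj hmeas
  have hval : ∀ p ∈ G, μ.real {ω | σ ω = p.1 ∧ π ω = p.2} = 1 / ((n.factorial : ℝ) ^ 2) := by
    intro p _
    rw [h.indep, h.uniX, h.uniY, div_mul_div_comm, one_mul, sq]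
  rw [Finset.sum_congr rfl hval, Finset.sum_const, nsmul_eq_mul, mul_one_div] at hm
  rw [← hm]
  refine measureReal_mono (fun ω hω => ?_) (measure_ne_top _ _)
  obtain ⟨p, hp, h1, h2⟩ := Set.mem_iUnion₂.1 hω
  refine hS ω ?_
  rw [h1, h2]
  exact hp

/-- **Theorem.** For all large `n` and any two independent uniformly distributed random
permutations `σ`, `π` of `n` points, `U(σ, π) ≤ 4·10⁷ n^(1/3)` with probability at least
`1 - 4 n^(-1/72)`. -/
theorem result : ∃ N : ℕ, ∀ n : ℕ, N ≤ n →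
    ∀ (Ω : Type*) [MeasurableSpace Ω] (μ : Measure Ω) [IsProbabilityMeasure μ]
      (σ π : Ω → Equiv.Perm (Fin n)), IndepUniform μ σ π →
      1 - 4 * (n : ℝ) ^ (-(1 / 72) : ℝ) ≤
        μ.real {ω | (U (σ ω) (π ω) : ℝ) ≤ 40000000 * (n : ℝ) ^ ((1 : ℝ) / 3)} := by
  classical
  obtain ⟨N0, hN0⟩ := Filter.eventually_atTop.1 Pool.Agent.Helper99.Perm.final_bound
  refine ⟨max N0 1, fun n hn Ω _ μ _ σ π h => ?_⟩
  have hn0 : N0 ≤ n := le_trans (le_max_left _ _) hn
  have hn1 : 1 ≤ n := le_trans (le_max_right _ _) hn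
  refine (hN0 n hn0).trans (prob_bound μ σ π h _ _ fun ω hω => ?_)
  have hnice : Pool.Agent.Helper99.Perm.Nice ⌈(30000000 : ℝ) * (n : ℝ) ^ ((1 : ℝ) / 3)⌉₊
      (σ ω : Fin n → Fin n) (π ω : Fin n → Fin n) := by
    rw [Finset.mem_filter] at hω
    exact hω.2
  have hpow : 1 ≤ (n : ℝ) ^ ((1 : ℝ) / 3) :=
    Real.one_le_rpow (by exact_mod_cast hn1) (by norm_num)
  have hK1 : 1 ≤ ⌈(30000000 : ℝ) * (n : ℝ) ^ ((1 : ℝ) / 3)⌉₊ :=
    Nat.one_le_ceil_iff.2 (by linarith)
  have hK2 : (⌈(30000000 : ℝ) * (n : ℝ) ^ ((1 : ℝ) / 3)⌉₊ : ℝ) <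
      (30000000 : ℝ) * (n : ℝ) ^ ((1 : ℝ) / 3) + 1 := Nat.ceil_lt_add_one (by linarith)
  have hU : U (σ ω) (π ω) ≤ ⌈(30000000 : ℝ) * (n : ℝ) ^ ((1 : ℝ) / 3)⌉₊ :=
    Nat.sInf_le ⟨hK1, similar_of_nice _ _ hnice⟩
  have hU' : (U (σ ω) (π ω) : ℝ) ≤ (⌈(30000000 : ℝ) * (n : ℝ) ^ ((1 : ℝ) / 3)⌉₊ : ℝ) := by
    exact_mod_cast hU
  show (U (σ ω) (π ω) : ℝ) ≤ 40000000 * (n : ℝ) ^ ((1 : ℝ) / 3)
  linarith

end Pool.Agent.Results.MP_6726c7_co.CubeRootSimilarity
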